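import Pool.Agent.R301.FrTop

/-!
A Fréchet algebra of power series in infinitely many variables, different from the algebra of all
power series, with two different Fréchet algebra topologies.
-/

set_option autoImplicit false

namespace Pool.Agent.Results.MP_39588e_an.SecondTopology

open MvPowerSeries

/-- `τ` is a Fréchet algebra topology on `A`: it is the topology defined by an increasing sequence of
submultiplicative seminorms `p 0 ≤ p 1 ≤ ...` that separates the points of `A` and for which every
Cauchy sequence converges. -/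
def IsFrechetAlgebraTopology (A : Type) [CommRing A] [Algebra ℂ A] (τ : TopologicalSpace A) :
    Prop :=
  ∃ p : ℕ → Seminorm ℂ A, Monotone p ∧ (∀ m x y, p m (x * y) ≤ p m x * p m y) ∧
    (∀ x, (∀ m, p m x = 0) → x = 0) ∧
    (∀ u : ℕ → A, (∀ m, ∀ ε > 0, ∃ N, ∀ i ≥ N, ∀ j ≥ N, p m (u i - u j) < ε) →
      ∃ x, ∀ m, ∀ ε > 0, ∃ N, ∀ i ≥ N, p m (u i - x) < ε) ∧
    ∀ U : Set A, @IsOpen A τ U ↔ ∀ x ∈ U, ∃ m, ∃ ε > 0, ∀ y, p m (y - x) < ε → y ∈ U

/-- The subalgebra `A` of the algebra of all formal power series in countably many variables, with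
the topology `τ`, is a Fréchet algebra of power series: `τ` is a Fréchet algebra topology, `A`
contains all variables, and all coordinate functionals are continuous. -/
def IsFrAPS (A : Subalgebra ℂ (MvPowerSeries ℕ ℂ)) (τ : TopologicalSpace A) : Prop :=
  IsFrechetAlgebraTopology A τ ∧ (∀ i, X i ∈ A) ∧
    ∀ r : ℕ →₀ ℕ, @Continuous A ℂ τ inferInstance (fun f => coeff r f.1)

/-- the topology defined by an increasing sequence of seminorms -/
def topOf {E : Type} [AddCommGroup E] [Module ℂ E] (p : ℕ → Seminorm ℂ E) (hp : Monotone p) :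
    TopologicalSpace E where
  IsOpen U := ∀ x ∈ U, ∃ m, ∃ ε > 0, ∀ y, p m (y - x) < ε → y ∈ U
  isOpen_univ := fun _ _ => ⟨0, 1, one_pos, fun _ _ => trivial⟩
  isOpen_inter := by
    rintro U V hU hV x ⟨hxU, hxV⟩
    obtain ⟨m, ε, hε, h1⟩ := hU x hxU
    obtain ⟨n, δ, hδ, h2⟩ := hV x hxV
    refine ⟨max m n, min ε δ, lt_min hε hδ, fun y hy => ⟨h1 y ?_, h2 y ?_⟩⟩
    · exact ((hp (le_max_left m n)) (y - x)).trans_lt (hy.trans_le (min_le_left _ _))
    · exact ((hp (le_max_right m n)) (y - x)).trans_lt (hy.trans_le (min_le_right _ _))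
  isOpen_sUnion := by
    intro s hs x hx
    obtain ⟨U, hU, hxU⟩ := hx
    obtain ⟨m, ε, hε, h1⟩ := hs U hU x hxU
    exact ⟨m, ε, hε, fun y hy => ⟨U, hU, h1 y hy⟩⟩

open Pool.Agent.R301.FrAlg Pool.Agent.R301.FrTop

theorem coeff_le_p (r : ℕ →₀ ℕ) (f : Pool.Agent.R301.FrTop.A) :
    ‖coeff r f.1‖ ≤ p r.degree f := by
  refine le_trans ?_ (sn_le_p _ _)
  rw [sn_apply, ← coeff_hc_self f.1 r]
  exact le_nu ((mem_A _).mp f.2 r.degree).2 r

/-- The algebra `A` of all power series in countably many variables whose homogeneous components have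
absolutely summable coefficients is a Fréchet algebra of power series, it is not the algebra of all
power series, and it has a second Fréchet algebra topology. -/
theorem result : ∃ A : Subalgebra ℂ (MvPowerSeries ℕ ℂ),
    (∀ f : MvPowerSeries ℕ ℂ, f ∈ A ↔
      ∀ d : ℕ, Summable fun r : ℕ →₀ ℕ => if r.degree = d then ‖coeff r f‖ else 0) ∧
    A ≠ ⊤ ∧ ∃ τ τ' : TopologicalSpace A, IsFrAPS A τ ∧ IsFrechetAlgebraTopology A τ' ∧ τ ≠ τ' := by
  obtain ⟨T1, hT1, hT1X, hT1b⟩ := exists_T1
  obtain ⟨T, hT11, _, hT⟩ := exists_family T1 hT1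
  refine ⟨Pool.Agent.R301.FrTop.A, fun f => Iff.rfl, ?_, topOf p p_mono,
    topOf (q hT) (q_mono hT), ⟨⟨p, p_mono, p_mul, p_sep, p_complete, fun U => Iff.rfl⟩,
      fun i => G_le (X_mem_G i), fun r => ?_⟩,
    ⟨q hT, q_mono hT, q_mul hT, q_sep hT, q_complete hT, fun U => Iff.rfl⟩, ?_⟩
  · intro htop
    have h1 : (lin fun _ => 1) ∈ Pool.Agent.R301.FrTop.A := by rw [htop]; trivial
    have h2 := ((mem_A _).mp h1 1).2
    have h3 := h2.comp_injective sing_inj
    have h4 : ((fun r : ℕ →₀ ℕ => ‖coeff r (hc 1 (lin fun _ => 1))‖) ∘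
        fun j : ℕ => (Finsupp.single j 1 : ℕ →₀ ℕ)) = fun _ => (1 : ℝ) := by
      ext j
      simp only [Function.comp]
      rw [coeff_hc, if_pos (Finsupp.degree_single j 1), coeff_lin_single, norm_one]
    rw [h4] at h3
    have h5 := h3.tendsto_atTop_zero
    have h6 := tendsto_nhds_unique h5 tendsto_const_nhds
    exact zero_ne_one h6
  · refine @Continuous.mk _ _ (topOf p p_mono) _ _ ?_
    intro V hV x hx
    obtain ⟨ε, hε, hball⟩ := Metric.isOpen_iff.mp hV _ hx
    refine ⟨r.degree, ε, hε, fun y hy => hball ?_⟩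
    rw [Metric.mem_ball, dist_eq_norm]
    have h1 : coeff r y.1 - coeff r x.1 = coeff r (y - x).1 := by
      have : ((y - x : Pool.Agent.R301.FrTop.A) : F) = y.1 - x.1 := rfl
      rw [this, map_sub]
    rw [h1]
    exact (coeff_le_p r _).trans_lt hy
  · intro heq
    have hbG : lin cf ∈ G 1 := lin_mem summable_cf
    let b : Pool.Agent.R301.FrTop.A := ⟨lin cf, G_le hbG⟩
    let e0 : ℕ →₀ ℕ := Finsupp.single 0 1
    let U : Set Pool.Agent.R301.FrTop.A := {f | ‖coeff e0 (th hT f).1 - 2‖ < 1 / 2}
    have he0 : e0.degree = 1 := Finsupp.degree_single 0 1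
    have hX0 : coeff e0 (X 0 : F) = 1 := by
      classical
      rw [coeff_X, if_pos rfl]
    have hcf0 : cf 0 = 1 := by
      unfold cf
      norm_num
    have hthG : ∀ f : Pool.Agent.R301.FrTop.A, f.1 ∈ G 1 → (th hT f).1 = T1 f.1 := by
      intro f hf
      apply hc_ext
      intro d
      rw [th_val, hc_thF hT f.2]
      by_cases hd : d = 1
      · subst hd
        rw [hc_G hf, hc_G (hT1 _ hf).1, hT11]
      · rw [hc_G_ne hd hf, hc_G_ne hd (hT1 _ hf).1, map_zero]
    have hU2 : @IsOpen _ (topOf (q hT) (q_mono hT)) U := by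
      intro x hx
      refine ⟨e0.degree, 1 / 2 - ‖coeff e0 (th hT x).1 - 2‖, sub_pos.mpr hx, fun y hy => ?_⟩
      have h1 : coeff e0 (th hT y).1 - 2 =
          coeff e0 (th hT (y - x)).1 + (coeff e0 (th hT x).1 - 2) := by
        have h2 : (th hT (y - x)).1 = (th hT y).1 - (th hT x).1 := by
          rw [map_sub]
          rfl
        rw [h2, map_sub]
        ring
      have h3 := coeff_le_p e0 (th hT (y - x))
      have h4 : p e0.degree (th hT (y - x)) < 1 / 2 - ‖coeff e0 (th hT x).1 - 2‖ := hy
      change ‖coeff e0 (th hT y).1 - 2‖ < 1 / 2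
      rw [h1]
      refine (norm_add_le _ _).trans_lt ?_
      linarith
    rw [← heq] at hU2
    have hbU : b ∈ U := by
      change ‖coeff e0 (th hT b).1 - 2‖ < 1 / 2
      rw [hthG b hbG]
      change ‖coeff e0 (T1 (lin cf)) - 2‖ < 1 / 2
      rw [hT1b, map_add, coeff_lin_single, hX0, hcf0]
      norm_num
    obtain ⟨m, ε, hε, hU⟩ := hU2 b hbU
    -- the partial sums
    let cn : ℕ → ℕ → ℂ := fun n j => if j < n then cf j else 0
    have hcn : ∀ n, lin (cn n) ∈ Submodule.span ℂ (Set.range fun j : ℕ => (X j : F)) := by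
      classical
      intro n
      have h1 : lin (cn n) = ∑ j ∈ Finset.range n, cf j • (X j : F) := by
        ext r
        rw [map_sum]
        simp only [map_smul, coeff_X, smul_eq_mul, mul_ite, mul_one, mul_zero]
        by_cases hr : r ∈ Set.range (fun j : ℕ => (Finsupp.single j 1 : ℕ →₀ ℕ))
        · obtain ⟨j, rfl⟩ := hr
          simp only
          rw [coeff_lin_single]
          have h2 : ∀ k, (Finsupp.single j 1 = (Finsupp.single k 1 : ℕ →₀ ℕ)) ↔ j = k :=
            fun k => ⟨fun h => sing_inj h, fun h => by rw [h]⟩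
          simp only [h2]
          rw [Finset.sum_ite_eq]
          simp only [Finset.mem_range, cn]
        · rw [coeff_lin_out _ _ hr]
          symm
          apply Finset.sum_eq_zero
          intro j _
          rw [if_neg]
          intro h3
          exact hr ⟨j, h3.symm⟩
      rw [h1]
      exact Submodule.sum_mem _ fun j _ => Submodule.smul_mem _ _ (Submodule.subset_span ⟨j, rfl⟩)
    have hfix : ∀ f ∈ Submodule.span ℂ (Set.range fun j : ℕ => (X j : F)), T1 f = f := by
      intro f hf
      induction hf using Submodule.span_induction with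
      | mem x hx =>
        obtain ⟨j, rfl⟩ := hx
        exact hT1X j
      | zero => rw [map_zero]
      | add x y _ _ hx hy => rw [map_add, hx, hy]
      | smul c x _ hx => rw [map_smul, hx]
    have hspG : ∀ f ∈ Submodule.span ℂ (Set.range fun j : ℕ => (X j : F)), f ∈ G 1 := by
      intro f hf
      have : Submodule.span ℂ (Set.range fun j : ℕ => (X j : F)) ≤ G 1 := by
        rw [Submodule.span_le]
        rintro _ ⟨j, rfl⟩
        exact X_mem_G j
      exact this hf
    have hmain : ∃ n, 0 < n ∧ (∑' j, ‖cn n j - cf j‖) < ε := by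
      have h1 : ∀ n, (∑' j, ‖cn n j - cf j‖) ≤ (3 / 4 : ℝ) ^ n * 3 := by
        intro n
        have h2 : ∀ j, ‖cn n j - cf j‖ ≤ (3 / 4 : ℝ) ^ n * (2 / 3) ^ j := by
          intro j
          by_cases hj : j < n
          · simp only [cn]
            rw [if_pos hj, sub_self, norm_zero]
            positivity
          · simp only [cn]
            rw [if_neg hj, zero_sub, norm_neg, norm_cf]
            have h3 : (1 / 2 : ℝ) ^ j = (3 / 4) ^ j * (2 / 3) ^ j := by
              rw [← mul_pow]
              norm_num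
            rw [h3]
            apply mul_le_mul_of_nonneg_right _ (by positivity)
            exact pow_le_pow_of_le_one (by norm_num) (by norm_num) (by omega)
        have h4 : Summable fun j : ℕ => (3 / 4 : ℝ) ^ n * (2 / 3) ^ j :=
          (summable_geometric_of_lt_one (by norm_num) (by norm_num)).mul_left _
        have h5 : Summable fun j => ‖cn n j - cf j‖ :=
          Summable.of_nonneg_of_le (fun _ => norm_nonneg _) h2 h4
        refine (h5.tsum_le_tsum h2 h4).trans ?_
        rw [tsum_mul_left, tsum_geometric_of_lt_one (by norm_num) (by norm_num)]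
        norm_num
      have h6 : Filter.Tendsto (fun n : ℕ => (3 / 4 : ℝ) ^ n * 3) Filter.atTop (nhds (0 * 3)) :=
        (tendsto_pow_atTop_nhds_zero_of_lt_one (by norm_num) (by norm_num)).mul_const _
      rw [zero_mul] at h6
      have h7 := (h6.eventually (gt_mem_nhds hε)).and (Filter.eventually_gt_atTop 0)
      obtain ⟨n, hn, hn0⟩ := h7.exists
      exact ⟨n, hn0, (h1 n).trans_lt hn⟩
    obtain ⟨n, hn0, hn⟩ := hmain
    let y : Pool.Agent.R301.FrTop.A := ⟨lin (cn n), G_le (hspG _ (hcn n))⟩
    have hyU : y ∈ U := by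
      apply hU
      have h1 : ((y - b : Pool.Agent.R301.FrTop.A) : F) = lin (fun j => cn n j - cf j) := by
        change lin (cn n) - lin cf = _
        ext r
        rw [map_sub, coeff_lin, coeff_lin, coeff_lin]
        split_ifs
        · rfl
        · rw [sub_zero]
      rw [p_apply]
      have h2 : ∀ d ∈ Finset.range (m + 1), sn d (y - b) ≤
          if d = 1 then ∑' j, ‖cn n j - cf j‖ else 0 := by
        intro d _
        have hmem : (y - b : Pool.Agent.R301.FrTop.A).1 ∈ G 1 :=
          Submodule.sub_mem _ (hspG _ (hcn n)) hbG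
        rw [sn_apply]
        by_cases hd : d = 1
        · subst hd
          rw [if_pos rfl, hc_G hmem, h1, nu_lin]
        · rw [if_neg hd, hc_G_ne hd hmem, nu_zero]
      refine (Finset.sum_le_sum h2).trans_lt ?_
      rw [Finset.sum_ite_eq']
      split_ifs
      · exact hn
      · exact hε
    have hfin : ‖coeff e0 (th hT y).1 - 2‖ < 1 / 2 := hyU
    rw [hthG y (hspG _ (hcn n)), hfix _ (hcn n)] at hfin
    change ‖coeff e0 (lin (cn n)) - 2‖ < 1 / 2 at hfin
    rw [coeff_lin_single] at hfin
    simp only [cn] at hfin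
    rw [if_pos hn0, hcf0] at hfin
    norm_num at hfin

end Pool.Agent.Results.MP_39588e_an.SecondTopology
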